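import Pool.Agent.Run7.h342.MD.Stm

/-!
Piece SLI: a regular function which vanishes on the orbit of a point with trivial stabilizer and
whose derivative in a transversal direction is 1 along the orbit.
-/

namespace Run7.h464.MD

open MvPolynomial Run7.h342.MD

noncomputable section

section lin

variable {n d : ℕ} {k : Type} [Field k]

theorem lie_add (Y Z : Matrix (Fin n) (Fin n) k) (c : Ix n d → k) :
    lie (Y + Z) c = lie Y c + lie Z c := by
  funext q
  rw [Pi.add_apply]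
  unfold lie
  rw [← coeff_add]
  congr 1
  simp only [Matrix.add_apply, map_add, add_mul, Finset.sum_add_distrib]
  ring

theorem lie_smul (a : k) (Y : Matrix (Fin n) (Fin n) k) (c : Ix n d → k) :
    lie (a • Y) c = a • lie Y c := by
  funext q
  rw [Pi.smul_apply, smul_eq_mul]
  unfold lie
  rw [← coeff_C_mul]
  congr 1
  simp only [Matrix.smul_apply, smul_eq_mul, map_mul, mul_assoc, ← Finset.mul_sum]
  ring

/-- `Y ↦ lie Y c` as a linear map -/
def lieL (c : Ix n d → k) : Matrix (Fin n) (Fin n) k →ₗ[k] (Ix n d → k) where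
  toFun Y := lie Y c
  map_add' Y Z := lie_add Y Z c
  map_smul' a Y := lie_smul a Y c

theorem exists_functional (c v : Ix n d → k)
    (hv : ∀ Y : Matrix (Fin n) (Fin n) k, v ≠ lie Y c) :
    ∃ l : Ix n d → k, (∀ Y, ∑ q, l q * lie Y c q = 0) ∧ ∑ q, l q * v q ≠ 0 := by
  have h1 : v ∉ LinearMap.range (lieL c) := by
    rintro ⟨Y, hY⟩
    exact hv Y hY.symm
  obtain ⟨f, hf1, hf2⟩ := Submodule.exists_le_ker_of_notMem h1
  classical
  have h2 : ∀ w : Ix n d → k, ∑ q, f (Pi.single q 1) * w q = f w := by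
    intro w
    rw [LinearMap.pi_apply_eq_sum_univ f w]
    refine Finset.sum_congr rfl fun q _ => ?_
    rw [smul_eq_mul, mul_comm]
    congr 2
    funext j
    rw [Pi.single_apply]
    simp only [eq_comm]
  refine ⟨fun q => f (Pi.single q 1), fun Y => ?_, ?_⟩
  · rw [h2]
    exact hf2 ⟨Y, rfl⟩
  · rw [h2]
    exact hf1

end lin

section points

variable {n : ℕ} {k : Type} [Field k]

theorem det_ne (g : GL (Fin n) k) : (g : Matrix (Fin n) (Fin n) k).det ≠ 0 :=
  ((Matrix.isUnit_iff_isUnit_det _).1 g.isUnit).ne_zero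

/-- the coordinates of a point of `GL_n`, with the inverse of the determinant -/
def ptG (g : GL (Fin n) k) : (Fin n × Fin n) ⊕ Unit → k :=
  Sum.elim (ent (g : Matrix (Fin n) (Fin n) k)) (fun _ => (g : Matrix (Fin n) (Fin n) k).det⁻¹)

theorem coord_mem (s : (Fin n × Fin n) ⊕ Unit) : (fun g : GL (Fin n) k => ptG g s) ∈ OG n k := by
  rcases s with p | u
  · refine ⟨X p, 0, fun g => ?_⟩
    rw [pow_zero, mul_one, eval_X]
    rfl
  · refine ⟨1, 1, fun g => ?_⟩
    rw [pow_one, map_one]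
    exact inv_mul_cancel₀ (det_ne g)

variable (n k) in
/-- `OG` as a quotient of a polynomial ring -/
def toOG : MvPolynomial ((Fin n × Fin n) ⊕ Unit) k →ₐ[k] OG n k :=
  aeval (fun s => ⟨fun g : GL (Fin n) k => ptG g s, coord_mem s⟩)

theorem toOG_apply (P : MvPolynomial ((Fin n × Fin n) ⊕ Unit) k) (g : GL (Fin n) k) :
    (toOG n k P).1 g = eval (ptG g) P := by
  have h1 : ((Pi.evalAlgHom k (fun _ : GL (Fin n) k => k) g).comp ((OG n k).val.comp (toOG n k))) =
      aeval (ptG g) := by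
    apply MvPolynomial.algHom_ext
    intro s
    rw [aeval_X]
    simp [toOG]
  have h2 := DFunLike.congr_fun h1 P
  rw [aeval_eq_eval] at h2
  exact h2

theorem toOG_surj : Function.Surjective (toOG n k) := by
  intro f
  obtain ⟨p, m, h⟩ := f.2
  refine ⟨rename Sum.inl p * X (Sum.inr ()) ^ m, ?_⟩
  apply Subtype.ext
  funext g
  rw [toOG_apply, map_mul, map_pow, eval_X, eval_rename]
  have h1 : ptG g ∘ Sum.inl = ent (g : Matrix (Fin n) (Fin n) k) := rfl
  have h2 : ptG g (Sum.inr ()) = (g : Matrix (Fin n) (Fin n) k).det⁻¹ := rfl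
  rw [h1, h2, ← h g, mul_assoc, ← mul_pow, mul_inv_cancel₀ (det_ne g), one_pow, mul_one]

/-- Nullstellensatz for `GL_n`. -/
theorem exists_point [IsAlgClosed k] (N : Ideal (OG n k)) (hN : N.IsMaximal) :
    ∃ g : GL (Fin n) k, ∀ f ∈ N, f.1 g = 0 := by
  have h1 : (N.comap (toOG n k)).IsMaximal := Ideal.comap_isMaximal_of_surjective _ toOG_surj
  obtain ⟨x, hx⟩ := MvPolynomial.isMaximal_iff_eq_vanishingIdeal_singleton.1 h1
  have hx' : ∀ P : MvPolynomial ((Fin n × Fin n) ⊕ Unit) k, toOG n k P ∈ N → eval x P = 0 := by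
    intro P hP
    have h2 : P ∈ N.comap (toOG n k) := hP
    rw [hx, mem_vanishingIdeal_singleton_iff, aeval_eq_eval] at h2
    exact h2
  set B : Matrix (Fin n) (Fin n) k := fun i j => x (Sum.inl (i, j)) with hB
  have h3 : x (Sum.inr ()) * B.det = 1 := by
    have h4 := hx' (X (Sum.inr ()) * rename Sum.inl (Matrix.mvPolynomialX (Fin n) (Fin n) k).det - 1)
      (by
        have h5 : toOG n k (X (Sum.inr ()) *
            rename Sum.inl (Matrix.mvPolynomialX (Fin n) (Fin n) k).det - 1) = 0 := by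
          apply Subtype.ext
          funext g
          rw [toOG_apply, map_sub, map_mul, eval_X, eval_rename, map_one]
          have h6 : ptG g ∘ Sum.inl = ent (g : Matrix (Fin n) (Fin n) k) := rfl
          have h7 : ptG g (Sum.inr ()) = (g : Matrix (Fin n) (Fin n) k).det⁻¹ := rfl
          have h8 : eval (ent (g : Matrix (Fin n) (Fin n) k))
              (Matrix.mvPolynomialX (Fin n) (Fin n) k).det =
              (g : Matrix (Fin n) (Fin n) k).det := by
            rw [Matrix.eval_det_mvPolynomialX]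
            rfl
          rw [h6, h7, h8, inv_mul_cancel₀ (det_ne g), sub_self]
          rfl
        rw [h5]
        exact N.zero_mem)
    rw [map_sub, map_mul, eval_X, eval_rename, map_one, Matrix.eval_det_mvPolynomialX,
      sub_eq_zero] at h4
    exact h4
  have h9 : IsUnit B.det := IsUnit.of_mul_eq_one _ ((mul_comm _ _).trans h3)
  set g : GL (Fin n) k := Matrix.GeneralLinearGroup.mkOfDetNeZero B h9.ne_zero with hg
  have h10 : (g : Matrix (Fin n) (Fin n) k) = B := rfl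
  have h11 : ptG g = x := by
    funext s
    rcases s with p | u
    · change ent (g : Matrix (Fin n) (Fin n) k) p = _
      rw [h10]
      rfl
    · change (g : Matrix (Fin n) (Fin n) k).det⁻¹ = _
      rw [h10]
      exact (eq_inv_of_mul_eq_one_left h3).symm
  refine ⟨g, fun f hf => ?_⟩
  obtain ⟨P, rfl⟩ := toOG_surj f
  rw [toOG_apply, h11]
  exact hx' P hf

end points

section integral

variable {n d : ℕ} {k : Type} [Field k] [IsAlgClosed k]

/-- All maximal ideals of the algebra of functions on the orbit come from points. -/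
theorem exists_point_of_ne_top {h : U n d k} (hle : Cs h ≤ OG n k)
    (hint : ∀ f ∈ OG n k, IsIntegral (Cs h) f) (I : Ideal (Cs h)) (hI : I ≠ ⊤) :
    ∃ g : GL (Fin n) k, ∀ f ∈ I, f.1 g = 0 := by
  obtain ⟨M, hM, hIM⟩ := Ideal.exists_le_maximal I hI
  let _ : Algebra (Cs h) (OG n k) := (Subalgebra.inclusion hle).toRingHom.toAlgebra
  have hval : ∀ f : Cs h, (algebraMap (Cs h) (OG n k) f).1 = f.1 := fun _ => rfl
  have hinj : Function.Injective (algebraMap (Cs h) (OG n k)) := by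
    intro f f' hf
    apply Subtype.ext
    rw [← hval f, ← hval f', hf]
  have : Algebra.IsIntegral (Cs h) (OG n k) := by
    refine ⟨fun f => ?_⟩
    obtain ⟨p, hp, hp2⟩ := hint f.1 f.2
    refine ⟨p, hp, ?_⟩
    apply Subtype.ext
    have h1 := Polynomial.hom_eval₂ p (algebraMap (Cs h) (OG n k)) (OG n k).val.toRingHom f
    refine Eq.trans h1 (Eq.trans ?_ hp2)
    rfl
  obtain ⟨N, hN, hNM⟩ := Ideal.exists_ideal_over_maximal_of_isIntegral (S := OG n k) M
    (by rw [(RingHom.injective_iff_ker_eq_bot _).1 hinj]; exact bot_le)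
  obtain ⟨g, hg⟩ := exists_point N hN
  refine ⟨g, fun f hf => ?_⟩
  have h2 : f ∈ M := hIM hf
  rw [← hNM] at h2
  have h3 := hg _ h2
  rwa [hval] at h3

end integral

section main

variable {n d : ℕ} {k : Type} [Field k] [IsAlgClosed k] [CharZero k]

theorem gact_one (h : U n d k) : gact 1 h = h := by
  have : Infinite k := IsAlgClosed.instInfinite
  exact Subtype.ext (act_one h.1)

theorem gact_mul (g g' : GL (Fin n) k) (h : U n d k) : gact (g * g') h = gact g (gact g' h) := by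
  have : Infinite k := IsAlgClosed.instInfinite
  exact Subtype.ext (act_mul g g' h.1)

theorem act_mul' (g g' : GL (Fin n) k) (v : Ix n d → k) : act (g * g') v = act g (act g' v) := by
  have : Infinite k := IsAlgClosed.instInfinite
  exact act_mul g g' v

theorem act_one' (v : Ix n d → k) : act 1 v = v := by
  have : Infinite k := IsAlgClosed.instInfinite
  exact act_one v

/-- the functions of `Mx²` times `c₀²` are restrictions of functions which vanish to second order -/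
theorem lift_sq (hDU : S_DU n d k) (h : U n d k) {c₀ : GL (Fin n) k → k}
    (hc : ∀ f ∈ Cm n d k, c₀ * f ∈ Cs h) (f : Cm n d k) (hf : f ∈ Mx n d k ^ 2) :
    ∃ φ : U n d k → k, RegU φ ∧ orb h φ = c₀ ^ 2 * f.1 ∧ φ h = 0 ∧ ∀ w, dU φ h w = 0 := by
  rw [pow_two] at hf
  induction hf using Submodule.mul_induction_on' with
  | mem_mul_mem a ha b hb =>
    have key : ∀ a ∈ Mx n d k, ∃ ψ : U n d k → k, RegU ψ ∧ orb h ψ = c₀ * a.1 ∧ ψ h = 0 := by
      intro a ha
      obtain ⟨ψ, h1, h2⟩ := hc a.1 a.2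
      refine ⟨ψ, h1, h2, ?_⟩
      have h3 := congrFun h2 1
      have h4 : ψ (gact 1 h) = c₀ 1 * a.1 1 := h3
      have h5 : a.1 1 = 0 := ha
      rwa [gact_one, h5, mul_zero] at h4
    obtain ⟨ψ, h1, h2, h3⟩ := key a ha
    obtain ⟨ψ', h1', h2', h3'⟩ := key b hb
    refine ⟨ψ * ψ', (OU n d k).mul_mem h1 h1', ?_, ?_, fun w => ?_⟩
    · rw [map_mul, h2, h2']
      change _ = c₀ ^ 2 * (a.1 * b.1)
      ring
    · rw [Pi.mul_apply, h3, zero_mul]
    · rw [hDU.mul ψ ψ' h1 h1', h3, h3', zero_mul, zero_mul, add_zero]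
  | add a _ b _ iha ihb =>
    obtain ⟨ψ, h1, h2, h3, h4⟩ := iha
    obtain ⟨ψ', h1', h2', h3', h4'⟩ := ihb
    refine ⟨ψ + ψ', (OU n d k).add_mem h1 h1', ?_, ?_, fun w => ?_⟩
    · rw [map_add, h2, h2']
      change _ = c₀ ^ 2 * (a.1 + b.1)
      ring
    · rw [Pi.add_apply, h3, h3', zero_add]
    · rw [hDU.add ψ ψ' h1 h1', h4, h4', zero_add]

/-- step (1) and (2) -/
theorem step (hDU : S_DU n d k) (hORB : S_ORB n d k) (hETA : S_ETA n d k)
    (hCON : S_CON n d k) (h : U n d k) (hst : TrivStab h.1) (v : Ix n d → k)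
    (hv : ∀ Y : Matrix (Fin n) (Fin n) k, v ≠ lie Y h.1) :
    ∃ φ : U n d k → k, RegU φ ∧ (∀ g, φ (gact g h) = 0) ∧ dU φ h v ≠ 0 ∧
      (fun g => dU φ (gact g h) (act g v)) ∈ Cs h := by
  obtain ⟨l, hl1, hl2⟩ := exists_functional h.1 v hv
  obtain ⟨c₀, ⟨b₀, hb₀, hcb⟩, hc1, hc⟩ := hCON h hst
  have hb1 : b₀ h ≠ 0 := by
    have h1 : b₀ (gact 1 h) = c₀ 1 := congrFun hcb 1
    rw [gact_one] at h1
    rw [h1]
    exact hc1
  set a : k := -(∑ q, l q * h.1 q) with ha
  set φ₁ : U n d k → k := fun x => (∑ q, l q * x.1 q) + a with hφ₁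
  have hreg₁ : RegU φ₁ := by
    refine ⟨∑ q, C (l q) * X q + C a, 1, fun x => ⟨?_, ?_⟩⟩
    · rw [map_one]
      exact one_ne_zero
    · rw [map_one, div_one, map_add, map_sum, eval_C]
      change (∑ q, l q * x.1 q) + a = _
      congr 1
      apply Finset.sum_congr rfl
      intro q _
      rw [map_mul, eval_C, eval_X]
  have hφ₁h : φ₁ h = 0 := by
    rw [hφ₁]
    simp only [ha]
    ring
  have hd₁ : ∀ w, dU φ₁ h w = ∑ q, l q * w q := fun w => hDU.lin l a h w
  have hmem : orb h φ₁ ∈ Cm n d k := hORB.reg φ₁ hreg₁ h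
  obtain ⟨φ₂, hreg₂, hφ₂, hφ₂h, hd₂⟩ := lift_sq hDU h hc ⟨orb h φ₁, hmem⟩ (by
    apply hETA
    · change φ₁ (gact 1 h) = 0
      rw [gact_one, hφ₁h]
    · intro Y
      change dG (orb h φ₁) Y = 0
      rw [hORB.der φ₁ hreg₁ h Y, hd₁]
      exact hl1 Y)
  have hbreg : RegU b₀ := hb₀
  have hregm : RegU (b₀ ^ 2 * φ₁) := (OU n d k).mul_mem ((OU n d k).pow_mem hb₀ 2) hreg₁
  have hregn : RegU ((-1 : k) • φ₂) := (OU n d k).smul_mem hreg₂ (-1)
  set φ₀ : U n d k → k := b₀ ^ 2 * φ₁ + (-1 : k) • φ₂ with hφ₀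
  have hreg₀ : RegU φ₀ := (OU n d k).add_mem hregm hregn
  have hφ₀0 : ∀ g, φ₀ (gact g h) = 0 := by
    intro g
    have h1 : φ₂ (gact g h) = c₀ g ^ 2 * φ₁ (gact g h) := congrFun hφ₂ g
    have h2 : b₀ (gact g h) = c₀ g := congrFun hcb g
    rw [hφ₀]
    simp only [Pi.add_apply, Pi.mul_apply, Pi.pow_apply, Pi.smul_apply, smul_eq_mul, h1, h2]
    ring
  have hφ₀h : φ₀ h = 0 := by
    have := hφ₀0 1
    rwa [gact_one] at this
  have hd₀ : dU φ₀ h v = b₀ h ^ 2 * ∑ q, l q * v q := by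
    rw [hφ₀, hDU.add _ _ hregm hregn, hDU.mul _ _ ((OU n d k).pow_mem hb₀ 2) hreg₁,
      hDU.smul _ _ hreg₂, hd₂, hd₁, hφ₁h, mul_zero, add_zero, zero_mul, add_zero]
    rfl
  refine ⟨b₀ * φ₀, (OU n d k).mul_mem hb₀ hreg₀, fun g => ?_, ?_, ?_⟩
  · rw [Pi.mul_apply, hφ₀0, mul_zero]
  · rw [hDU.mul _ _ hbreg hreg₀, hφ₀h, zero_mul, add_zero, hd₀]
    exact mul_ne_zero hb1 (mul_ne_zero (pow_ne_zero 2 hb1) hl2)
  · have h1 : (fun g => dU (b₀ * φ₀) (gact g h) (act g v)) =
        c₀ * (fun g => dU φ₀ (gact g h) (act g v)) := by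
      funext g
      rw [Pi.mul_apply, hDU.mul _ _ hbreg hreg₀, hφ₀0, zero_mul, add_zero]
      have h2 : b₀ (gact g h) = c₀ g := congrFun hcb g
      rw [h2]
    rw [h1]
    exact hc _ (hORB.jet φ₀ hreg₀ h v)

/-- the ideal of the derivatives of the functions which vanish on the orbit -/
theorem exists_ideal (hDU : S_DU n d k) (h : U n d k) (v : Ix n d → k) :
    ∃ I : Ideal (Cs h), ∀ f : Cs h, f ∈ I ↔ ∃ φ : U n d k → k, RegU φ ∧
      (∀ g, φ (gact g h) = 0) ∧ ∀ g, f.1 g = dU φ (gact g h) (act g v) := by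
  refine ⟨{ carrier := {f | ∃ φ : U n d k → k, RegU φ ∧
              (∀ g, φ (gact g h) = 0) ∧ ∀ g, f.1 g = dU φ (gact g h) (act g v)}
            zero_mem' := ?_
            add_mem' := ?_
            smul_mem' := ?_ }, fun f => Iff.rfl⟩
  · rintro f f' ⟨φ, h1, h2, h3⟩ ⟨φ', h1', h2', h3'⟩
    refine ⟨φ + φ', (OU n d k).add_mem h1 h1', fun g => ?_, fun g => ?_⟩
    · rw [Pi.add_apply, h2, h2', zero_add]
    · rw [hDU.add _ _ h1 h1', ← h3, ← h3']
      rfl
  · refine ⟨fun _ => 0, (OU n d k).zero_mem, fun g => rfl, fun g => ?_⟩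
    rw [hDU.const]
    rfl
  · rintro ⟨b, ψ, hψ, hb⟩ f ⟨φ, h1, h2, h3⟩
    refine ⟨ψ * φ, (OU n d k).mul_mem hψ h1, fun g => ?_, fun g => ?_⟩
    · rw [Pi.mul_apply, h2, mul_zero]
    · rw [hDU.mul _ _ hψ h1, h2, zero_mul, add_zero, ← h3]
      have h4 : ψ (gact g h) = b g := congrFun hb g
      rw [h4]
      rfl

end main

/-- Piece SLI. -/
theorem t_SLI' (n d : ℕ) (k : Type) [Field k] [IsAlgClosed k] [CharZero k]
    (hDU : S_DU n d k) (hORB : S_ORB n d k) (hINT : S_INT n d k) (hETA : S_ETA n d k)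
    (hCON : S_CON n d k) : S_SLI n d k := by
  intro h hst v hv
  obtain ⟨φ₃, hreg, hzero, hne, hCs⟩ := step hDU hORB hETA hCON h hst v hv
  obtain ⟨I, hI⟩ := exists_ideal hDU h v
  have hle : Cs h ≤ OG n k := by
    rintro _ ⟨ψ, hψ, rfl⟩
    exact (hORB.reg ψ hψ h).1
  have htop : I = ⊤ := by
    by_contra hI'
    obtain ⟨g, hg⟩ := exists_point_of_ne_top hle (hINT h) I hI'
    obtain ⟨ψ, hψ, hψ2⟩ := hCs
    have hψ3 : ∀ g', ψ (gact g' h) = dU φ₃ (gact g' h) (act g' v) := fun g' => congrFun hψ2 g'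
    have hmem : orb h (fun x => ψ (gact g⁻¹ x)) ∈ Cs h :=
      ⟨_, hDU.regact ψ hψ g⁻¹, rfl⟩
    have h1 := hg ⟨_, hmem⟩ ((hI _).2 ⟨fun x => φ₃ (gact g⁻¹ x), hDU.regact φ₃ hreg g⁻¹,
      fun g' => by
        change φ₃ (gact g⁻¹ (gact g' h)) = 0
        rw [← gact_mul]
        exact hzero _,
      fun g' => by
        rw [hDU.act φ₃ hreg]
        change ψ (gact g⁻¹ (gact g' h)) = _
        rw [← gact_mul, ← act_mul']
        exact hψ3 _⟩)
    have h2 : ψ (gact g⁻¹ (gact g h)) = 0 := h1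
    rw [← gact_mul, inv_mul_cancel, hψ3, gact_one, act_one'] at h2
    exact hne h2
  have h1 : (1 : Cs h) ∈ I := htop ▸ Submodule.mem_top
  obtain ⟨φ, h2, h3, h4⟩ := (hI 1).1 h1
  exact ⟨φ, h2, h3, fun g => (h4 g).symm⟩

theorem t_SLI (n d : ℕ) (k : Type) [Field k] [IsAlgClosed k] [CharZero k] (_hn : 3 ≤ n)
    (_hd : 2 ≤ d) : S_RES n d k → S_REPU n d k → S_DU n d k → S_DG n k → S_ORB n d k →
    S_INT n d k → S_INF n d k → S_ETA n d k → S_CON n d k → S_SLI n d k :=
  fun _ _ hDU _ hORB hINT _ hETA hCON => t_SLI' n d k hDU hORB hINT hETA hCON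

end

end Run7.h464.MD
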